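import Mathlib

/-!
Project MM (helper80), package MEAS: substitution of combinations of the basis.
-/

set_option autoImplicit false

namespace Pool.Agent.Helper85.MM

open MvPolynomial

section Sub

variable {n N : ℕ}

/-- the linear forms -/
noncomputable def Lf (A : Fin n → Fin N → ℤ) (e : Fin N → GaussianInt) (i : Fin n) :
    MvPolynomial (Fin N) GaussianInt :=
  ∑ k, C ((A i k : GaussianInt) * e k) * X k

/-- the substitution of a monomial -/
noncomputable def Rm (A : Fin n → Fin N → ℤ) (e : Fin N → GaussianInt) (d D : ℕ)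
    (m : Fin n →₀ ℕ) : MvPolynomial (Fin N) GaussianInt :=
  C ((d : GaussianInt) ^ (D - m.degree)) * ∏ i, Lf A e i ^ m i

/-- the substitution of a polynomial -/
noncomputable def Qp (A : Fin n → Fin N → ℤ) (e : Fin N → GaussianInt) (d D : ℕ)
    (P : MvPolynomial (Fin n) ℤ) : MvPolynomial (Fin N) GaussianInt :=
  ∑ m ∈ P.support, C ((P.coeff m : ℤ) : GaussianInt) * Rm A e d D m

/-- evaluation -/
noncomputable def ev (x : Fin N → ℂ) : MvPolynomial (Fin N) GaussianInt →+* ℂ :=
  eval₂Hom GaussianInt.toComplex x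

theorem ev_Lf (A : Fin n → Fin N → ℤ) (e : Fin N → GaussianInt) (x : Fin N → ℂ) (i : Fin n) :
    ev x (Lf A e i) = ∑ k, (A i k : ℂ) * GaussianInt.toComplex (e k) * x k := by
  rw [Lf, map_sum]
  refine Finset.sum_congr rfl fun k _ => ?_
  have h1 : ev x (C ((A i k : GaussianInt) * e k)) = (A i k : ℂ) * GaussianInt.toComplex (e k) := by
    rw [ev, coe_eval₂Hom, eval₂_C, map_mul, map_intCast]
  have h2 : ev x (X k) = x k := by rw [ev, coe_eval₂Hom, eval₂_X]
  rw [map_mul, h1, h2]

theorem ev_Qp (A : Fin n → Fin N → ℤ) (e : Fin N → GaussianInt) (d D : ℕ)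
    (P : MvPolynomial (Fin n) ℤ) (hP : P.totalDegree ≤ D) (x : Fin N → ℂ) (v : Fin n → ℂ)
    (h : ∀ i, ∑ k, (A i k : ℂ) * GaussianInt.toComplex (e k) * x k = d * v i) :
    ev x (Qp A e d D P) = (d : ℂ) ^ D * aeval v P := by
  rw [Qp, map_sum, aeval_def, eval₂_eq', Finset.mul_sum]
  refine Finset.sum_congr rfl fun m hm => ?_
  have hdeg : m.degree ≤ D := (le_totalDegree hm).trans hP |> fun h => by
    simpa [Finsupp.degree_apply, Finsupp.sum] using h
  have h1 : ev x (Rm A e d D m) = (d : ℂ) ^ D * ∏ i, v i ^ m i := by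
    rw [Rm, map_mul, map_prod]
    have h2 : ∀ i, ev x (Lf A e i ^ m i) = (d : ℂ) ^ m i * v i ^ m i := by
      intro i
      rw [map_pow, ev_Lf, h, mul_pow]
    simp only [h2]
    rw [Finset.prod_mul_distrib, Finset.prod_pow_eq_pow_sum, ← Finsupp.degree_eq_sum]
    have h3 : ev x (C ((d : GaussianInt) ^ (D - m.degree))) = (d : ℂ) ^ (D - m.degree) := by
      simp [ev]
    rw [h3, ← mul_assoc, ← pow_add, Nat.sub_add_cancel hdeg]
  rw [map_mul, h1]
  have h4 : ev x (C ((P.coeff m : ℤ) : GaussianInt)) = (algebraMap ℤ ℂ) (P.coeff m) := by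
    simp [ev]
  rw [h4]
  ring

theorem deg_Rm (A : Fin n → Fin N → ℤ) (e : Fin N → GaussianInt) (d D : ℕ) (m : Fin n →₀ ℕ) :
    (Rm A e d D m).totalDegree ≤ m.degree := by
  have h1 : ∀ i, (Lf A e i).totalDegree ≤ 1 := by
    intro i
    refine (totalDegree_finset_sum _ _).trans (Finset.sup_le fun k _ => ?_)
    refine (totalDegree_mul _ _).trans ?_
    rw [totalDegree_C, zero_add]
    exact (totalDegree_X _).le
  refine (totalDegree_mul _ _).trans ?_
  rw [totalDegree_C, zero_add]
  refine (totalDegree_finset_prod _ _).trans ?_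
  rw [Finsupp.degree_eq_sum]
  refine Finset.sum_le_sum fun i _ => ?_
  refine (totalDegree_pow _ _).trans ?_
  calc m i * (Lf A e i).totalDegree ≤ m i * 1 := Nat.mul_le_mul_left _ (h1 i)
    _ = m i := mul_one _

theorem deg_Qp (A : Fin n → Fin N → ℤ) (e : Fin N → GaussianInt) (d D : ℕ)
    (P : MvPolynomial (Fin n) ℤ) (hP : P.totalDegree ≤ D) : (Qp A e d D P).totalDegree ≤ D := by
  refine (totalDegree_finset_sum _ _).trans (Finset.sup_le fun m hm => ?_)
  refine (totalDegree_mul _ _).trans ?_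
  rw [totalDegree_C, zero_add]
  refine (deg_Rm A e d D m).trans ?_
  have := (le_totalDegree hm).trans hP
  simpa [Finsupp.degree_apply, Finsupp.sum] using this

/-- size of a Gaussian integer -/
def sz (z : GaussianInt) : ℕ := z.re.natAbs + z.im.natAbs

theorem sz_add (z w : GaussianInt) : sz (z + w) ≤ sz z + sz w := by
  unfold sz
  simp only [Zsqrtd.re_add, Zsqrtd.im_add]
  have := Int.natAbs_add_le z.re w.re
  have := Int.natAbs_add_le z.im w.im
  omega

theorem sz_int_mul (a : ℤ) (z : GaussianInt) : sz ((a : GaussianInt) * z) = a.natAbs * sz z := by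
  unfold sz
  simp [Int.natAbs_mul, mul_add]

theorem sz_sum {ι : Type} (S : Finset ι) (f : ι → GaussianInt) :
    sz (∑ i ∈ S, f i) ≤ ∑ i ∈ S, sz (f i) := by
  classical
  induction S using Finset.induction_on with
  | empty => simp [sz]
  | insert a S ha ih =>
    rw [Finset.sum_insert ha, Finset.sum_insert ha]
    exact (sz_add _ _).trans (Nat.add_le_add_left ih _)

/-- the constant -/
noncomputable def KK (A : Fin n → Fin N → ℤ) (e : Fin N → GaussianInt) (d D : ℕ) : ℕ :=
  ∑ m ∈ Finset.Iic (Finsupp.equivFunOnFinite.symm fun _ : Fin n => D),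
    ∑ α ∈ (Rm A e d D m).support, sz ((Rm A e d D m).coeff α)

theorem sz_coeff (A : Fin n → Fin N → ℤ) (e : Fin N → GaussianInt) (d D : ℕ)
    (P : MvPolynomial (Fin n) ℤ) (hP : P.totalDegree ≤ D) (H : ℕ)
    (hH : ∀ m, |P.coeff m| ≤ (H : ℤ)) (α : Fin N →₀ ℕ) :
    sz ((Qp A e d D P).coeff α) ≤ KK A e d D * H := by
  have hsub : P.support ⊆ Finset.Iic (Finsupp.equivFunOnFinite.symm fun _ : Fin n => D) := by
    intro m hm
    rw [Finset.mem_Iic]
    intro i
    have h1 : m.degree ≤ D := by
      have := (le_totalDegree hm).trans hP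
      simpa [Finsupp.degree_apply, Finsupp.sum] using this
    have h2 : m i ≤ m.degree := Finsupp.le_degree i m
    simpa using h2.trans h1
  rw [Qp, coeff_sum]
  refine (sz_sum _ _).trans ?_
  rw [KK, Finset.sum_mul]
  refine le_trans (Finset.sum_le_sum fun m _ => ?_)
    (Finset.sum_le_sum_of_subset hsub)
  rw [coeff_C_mul, sz_int_mul, mul_comm]
  refine Nat.mul_le_mul ?_ ?_
  · by_cases h : α ∈ (Rm A e d D m).support
    · exact Finset.single_le_sum (f := fun α => sz ((Rm A e d D m).coeff α))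
        (fun _ _ => Nat.zero_le _) h
    · rw [notMem_support_iff.1 h]
      simp [sz]
  · have := hH m
    rw [Int.abs_eq_natAbs] at this
    exact_mod_cast this

/-- the real part -/
noncomputable def rp (Q : MvPolynomial (Fin N) GaussianInt) : MvPolynomial (Fin N) ℤ :=
  ∑ α ∈ Q.support, monomial α (Q.coeff α).re

/-- the imaginary part -/
noncomputable def ip (Q : MvPolynomial (Fin N) GaussianInt) : MvPolynomial (Fin N) ℤ :=
  ∑ α ∈ Q.support, monomial α (Q.coeff α).im

theorem coeff_rp (Q : MvPolynomial (Fin N) GaussianInt) (β : Fin N →₀ ℕ) :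
    (rp Q).coeff β = (Q.coeff β).re := by
  classical
  rw [rp, coeff_sum]
  simp only [coeff_monomial]
  by_cases h : β ∈ Q.support
  · rw [Finset.sum_eq_single β]
    · simp
    · intro b _ hb
      rw [if_neg hb]
    · intro h'
      exact absurd h h'
  · rw [notMem_support_iff.1 h]
    rw [Finset.sum_eq_zero]
    · rfl
    · intro b hb
      rw [if_neg]
      rintro rfl
      exact h hb

theorem coeff_ip (Q : MvPolynomial (Fin N) GaussianInt) (β : Fin N →₀ ℕ) :
    (ip Q).coeff β = (Q.coeff β).im := by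
  classical
  rw [ip, coeff_sum]
  simp only [coeff_monomial]
  by_cases h : β ∈ Q.support
  · rw [Finset.sum_eq_single β]
    · simp
    · intro b _ hb
      rw [if_neg hb]
    · intro h'
      exact absurd h h'
  · rw [notMem_support_iff.1 h]
    rw [Finset.sum_eq_zero]
    · rfl
    · intro b hb
      rw [if_neg]
      rintro rfl
      exact h hb

theorem deg_of_coeff {R : MvPolynomial (Fin N) ℤ} {Q : MvPolynomial (Fin N) GaussianInt}
    (h : ∀ β, Q.coeff β = 0 → R.coeff β = 0) : R.totalDegree ≤ Q.totalDegree := by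
  unfold totalDegree
  apply Finset.sup_mono
  intro β hβ
  rw [mem_support_iff] at hβ ⊢
  exact fun h0 => hβ (h β h0)

theorem ev_eq (Q : MvPolynomial (Fin N) GaussianInt) (s : Fin N → ℝ) :
    ev (fun k => (s k : ℂ)) Q =
      ∑ α ∈ Q.support, GaussianInt.toComplex (Q.coeff α) * ((∏ i, s i ^ α i : ℝ) : ℂ) := by
  rw [ev, coe_eval₂Hom, eval₂_eq']
  refine Finset.sum_congr rfl fun α _ => ?_
  push_cast
  rfl

theorem tc_re (z : GaussianInt) : (GaussianInt.toComplex z).re = (z.re : ℝ) := by
  rw [GaussianInt.toComplex_def]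
  simp

theorem tc_im (z : GaussianInt) : (GaussianInt.toComplex z).im = (z.im : ℝ) := by
  rw [GaussianInt.toComplex_def]
  simp

theorem aeval_rp (Q : MvPolynomial (Fin N) GaussianInt) (s : Fin N → ℝ) :
    aeval s (rp Q) = (ev (fun k => (s k : ℂ)) Q).re := by
  rw [ev_eq, rp, map_sum, Complex.re_sum]
  refine Finset.sum_congr rfl fun α _ => ?_
  rw [aeval_monomial, Complex.re_mul_ofReal, Finsupp.prod_fintype _ _ (fun i => pow_zero _), tc_re]
  rfl

theorem aeval_ip (Q : MvPolynomial (Fin N) GaussianInt) (s : Fin N → ℝ) :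
    aeval s (ip Q) = (ev (fun k => (s k : ℂ)) Q).im := by
  rw [ev_eq, ip, map_sum, Complex.im_sum]
  refine Finset.sum_congr rfl fun α _ => ?_
  rw [aeval_monomial, Complex.im_mul_ofReal, Finsupp.prod_fintype _ _ (fun i => pow_zero _), tc_im]
  rfl

theorem Qp_ne (A : Fin n → Fin N → ℤ) (e : Fin N → GaussianInt)
    (he : ∀ k, GaussianInt.toComplex (e k) ≠ 0) (d D : ℕ) (hd : 0 < d)
    (hA : LinearIndependent ℚ (fun i k => (A i k : ℚ)))
    (P : MvPolynomial (Fin n) ℤ) (hP : P.totalDegree ≤ D) (h0 : P ≠ 0) : Qp A e d D P ≠ 0 := by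
  intro hQ
  apply h0
  have hdC : (d : ℂ) ≠ 0 := by exact_mod_cast hd.ne'
  have hdQ : (d : ℚ) ≠ 0 := by exact_mod_cast hd.ne'
  -- surjectivity
  let M : Matrix (Fin n) (Fin N) ℚ := Matrix.of fun i k => (A i k : ℚ)
  have hr : M.rank = n := by
    have h1 : LinearIndependent ℚ M.row := hA
    have := h1.rank_matrix
    rwa [Fintype.card_fin] at this
  have hsurj : Function.Surjective M.mulVecLin := by
    rw [← LinearMap.range_eq_top]
    apply Submodule.eq_top_of_finrank_eq
    rw [Module.finrank_fin_fun]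
    exact hr
  have hz : ∀ v : Fin n → ℚ, aeval v P = 0 := by
    intro v
    obtain ⟨y, hy⟩ := hsurj (fun i => (d : ℚ) * v i)
    have hy' : ∀ i, ∑ k, (A i k : ℚ) * y k = d * v i := fun i => congrFun hy i
    have h1 := ev_Qp A e d D P hP (fun k => (GaussianInt.toComplex (e k))⁻¹ * (y k : ℂ))
      (fun i => (v i : ℂ)) (fun i => by
        have h2 : ∀ k, (A i k : ℂ) * GaussianInt.toComplex (e k) *
            ((GaussianInt.toComplex (e k))⁻¹ * (y k : ℂ)) = (((A i k : ℚ) * y k : ℚ) : ℂ) := by
          intro k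
          rw [mul_assoc, mul_inv_cancel_left₀ (he k)]
          push_cast
          rfl
        rw [Finset.sum_congr rfl fun k _ => h2 k, ← Rat.cast_sum, hy' i]
        push_cast
        rfl)
    rw [hQ, map_zero] at h1
    have h3 : aeval (fun i => (v i : ℂ)) P = 0 := by
      rcases mul_eq_zero.1 h1.symm with h | h
      · exact absurd h (pow_ne_zero _ hdC)
      · exact h
    have h4 := aeval_algebraMap_apply ℂ v P
    have h5 : (algebraMap ℚ ℂ) (aeval v P) = 0 := by
      rw [← h4]
      exact h3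
    exact (map_eq_zero _).1 h5
  have h6 : MvPolynomial.map (Int.castRingHom ℚ) P = 0 := by
    apply MvPolynomial.funext
    intro v
    rw [map_zero, eval_map]
    exact hz v
  exact (map_injective _ Int.cast_injective) (by rw [h6, map_zero])

end Sub

end Pool.Agent.Helper85.MM
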