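import Pool.Agent.Helper80.MM.Stm
import Pool.Agent.Helper85.MM.Meas0

/-!
Project MM (helper80), package MEAS.
-/

set_option autoImplicit false

namespace Pool.Agent.Helper85.MM

open MvPolynomial

theorem span_fin (f : ℕ → ℂ) {n : ℕ} (u : Fin n → ℂ)
    (hu : ∀ i, u i ∈ Submodule.span ℚ (Set.range f)) :
    ∃ (N : ℕ) (q : Fin n → Fin N → ℚ), ∀ i, u i = ∑ k : Fin N, (q i k : ℂ) * f k := by
  classical
  choose c hc using fun i => Finsupp.mem_span_range_iff_exists_finsupp.1 (hu i)
  let S : Finset ℕ := Finset.univ.biUnion fun i => (c i).support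
  refine ⟨S.sup id + 1, fun i k => c i k, fun i => ?_⟩
  rw [← Finset.sum_range (fun k => ((c i k : ℚ) : ℂ) * f k)]
  rw [← hc i, Finsupp.sum]
  have hsub : (c i).support ⊆ Finset.range (S.sup id + 1) := by
    intro k hk
    rw [Finset.mem_range]
    apply Nat.lt_succ_of_le
    exact Finset.le_sup (f := id) (Finset.mem_biUnion.2 ⟨i, Finset.mem_univ i, hk⟩)
  rw [← Finset.sum_subset hsub]
  · refine Finset.sum_congr rfl fun k _ => ?_
    rw [Algebra.smul_def]
    rfl
  · intro k _ hk
    rw [Finsupp.notMem_support_iff.1 hk]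
    simp

theorem denom {n N : ℕ} (q : Fin n → Fin N → ℚ) :
    ∃ d : ℕ, 0 < d ∧ ∃ A : Fin n → Fin N → ℤ, ∀ i k, (A i k : ℚ) = d * q i k := by
  refine ⟨∏ i, ∏ k, (q i k).den,
    Finset.prod_pos fun i _ => Finset.prod_pos fun k _ => (q i k).den_pos, ?_⟩
  have h : ∀ i k, ∃ a : ℤ, (a : ℚ) = ((∏ i, ∏ k, (q i k).den : ℕ) : ℚ) * q i k := by
    intro i k
    have h1 : (q i k).den ∣ ∏ i, ∏ k, (q i k).den :=
      (Finset.dvd_prod_of_mem (fun k => (q i k).den) (Finset.mem_univ k)).trans
        (Finset.dvd_prod_of_mem (fun i => ∏ k, (q i k).den) (Finset.mem_univ i))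
    obtain ⟨t, ht⟩ := h1
    refine ⟨t * (q i k).num, ?_⟩
    rw [ht]
    push_cast
    have h2 : ((q i k).den : ℚ) * q i k = (q i k).num := by
      rw [mul_comm]
      exact Rat.mul_den_eq_num (q i k)
    rw [mul_comm ((q i k).den : ℚ) t, mul_assoc, h2]
  choose A hA using h
  exact ⟨A, hA⟩

/-- Package MEAS. -/
theorem meas : Pool.Agent.Helper80.MM.S_MEAS := by
  intro D s e he hMR n u hu hli
  obtain ⟨N, q, hq⟩ := span_fin (fun k => e k * (s k : ℂ)) u hu
  obtain ⟨d, hd, A, hA⟩ := denom q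
  have he' : ∀ k, ∃ z : GaussianInt, GaussianInt.toComplex z = e k := by
    intro k
    rcases he k with h | h
    · exact ⟨1, by rw [h, map_one]⟩
    · refine ⟨⟨0, 1⟩, ?_⟩
      rw [h, GaussianInt.toComplex_def]
      simp
  choose g hg using he'
  let e' : Fin N → GaussianInt := fun k => g k
  have hne : ∀ k, GaussianInt.toComplex (e' k) ≠ 0 := by
    intro k
    change GaussianInt.toComplex (g k) ≠ 0
    rw [hg]
    rcases he k with h | h
    · rw [h]; exact one_ne_zero
    · rw [h]; exact Complex.I_ne_zero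
  have hdC : (d : ℂ) ≠ 0 := by exact_mod_cast hd.ne'
  have hAC : ∀ i k, (A i k : ℂ) = d * (q i k : ℂ) := by
    intro i k
    have := congrArg (fun x : ℚ => (x : ℂ)) (hA i k)
    push_cast at this
    exact this
  have hAu : ∀ i, ∑ k : Fin N, (A i k : ℂ) * (e k * (s k : ℂ)) = d * u i := by
    intro i
    rw [hq i, Finset.mul_sum]
    refine Finset.sum_congr rfl fun k _ => ?_
    rw [hAC]
    ring
  have hAu' : ∀ i, ∑ k : Fin N, (A i k : ℂ) * GaussianInt.toComplex (e' k) * (s k : ℂ) =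
      d * u i := by
    intro i
    rw [← hAu i]
    refine Finset.sum_congr rfl fun k _ => ?_
    change (A i k : ℂ) * GaussianInt.toComplex (g k) * (s k : ℂ) = _
    rw [hg, mul_assoc]
  have hAli : LinearIndependent ℚ (fun i k => (A i k : ℚ)) := by
    rw [Fintype.linearIndependent_iff]
    intro c hc
    apply Fintype.linearIndependent_iff.1 hli c
    have h1 : ∀ k : Fin N, ∑ i, (c i : ℂ) * (A i k : ℂ) = 0 := by
      intro k
      have h2 := congrFun hc k
      simp only [Finset.sum_apply, Pi.smul_apply, smul_eq_mul, Pi.zero_apply] at h2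
      have h3 := congrArg (fun x : ℚ => (x : ℂ)) h2
      push_cast at h3
      exact h3
    have h2 : (d : ℂ) * ∑ i, (c i : ℂ) * u i = 0 := by
      rw [Finset.mul_sum]
      have h3 : ∀ i, (d : ℂ) * ((c i : ℂ) * u i) =
          ∑ k : Fin N, (c i : ℂ) * (A i k : ℂ) * (e k * (s k : ℂ)) := by
        intro i
        rw [mul_left_comm, ← hAu i, Finset.mul_sum]
        exact Finset.sum_congr rfl fun k _ => (mul_assoc _ _ _).symm
      rw [Finset.sum_congr rfl fun i _ => h3 i, Finset.sum_comm]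
      refine Finset.sum_eq_zero fun k _ => ?_
      rw [← Finset.sum_mul, h1 k, zero_mul]
    have h4 := (mul_eq_zero.1 h2).resolve_left hdC
    rw [← h4]
    refine Finset.sum_congr rfl fun i _ => ?_
    rw [Algebra.smul_def]
    rfl
  obtain ⟨C0, hC0⟩ := hMR N
  set K := KK A e' d D with hK
  obtain ⟨c, hc⟩ : ∃ c : ℕ, d ^ D * (K + 2) ^ C0 ≤ 2 ^ c :=
    ⟨_, Nat.lt_two_pow_self.le⟩
  refine ⟨((c + C0 + 1 : ℕ) : ℝ), by positivity, ?_⟩
  intro H hH P hP hdeg hcoef
  have hH0 : 0 < H := by linarith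
  set h := ⌊H⌋₊ with hh
  have h2 : 2 ≤ h := Nat.le_floor (by exact_mod_cast hH)
  have hle : (h : ℝ) ≤ H := Nat.floor_le hH0.le
  have hcoef' : ∀ m, |P.coeff m| ≤ (h : ℤ) := by
    intro m
    have h3 := hcoef m
    rw [← Int.cast_abs, Int.abs_eq_natAbs, Int.cast_natCast] at h3
    rw [Int.abs_eq_natAbs]
    exact_mod_cast Nat.le_floor h3
  set Q := Qp A e' d D P with hQd
  have hQ0 : Q ≠ 0 := Qp_ne A e' hne d D hd hAli P hdeg hP
  have hQdeg : Q.totalDegree ≤ D := deg_Qp A e' d D P hdeg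
  have hQsz : ∀ β, sz (Q.coeff β) ≤ (K + 2) * h := fun β =>
    (sz_coeff A e' d D P hdeg h hcoef' β).trans (Nat.mul_le_mul_right _ (by omega))
  have hev : ev (fun k : Fin N => ((s k : ℝ) : ℂ)) Q = (d : ℂ) ^ D * aeval u P :=
    ev_Qp A e' d D P hdeg _ u hAu'
  have hH1 : 2 ≤ (K + 2) * h := by nlinarith
  have hkey : 1 ≤ ‖ev (fun k : Fin N => ((s k : ℝ) : ℂ)) Q‖ * (((K + 2) * h : ℕ) : ℝ) ^ C0 := by
    obtain ⟨β, hβ⟩ := ne_zero_iff.1 hQ0
    have hβ' : (Q.coeff β).re ≠ 0 ∨ (Q.coeff β).im ≠ 0 := by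
      by_contra hcon
      push Not at hcon
      exact hβ (Zsqrtd.ext hcon.1 hcon.2)
    rcases hβ' with hre | him
    · have h3 := hC0 _ hH1 (rp Q) (fun h0 => hre (by rw [← coeff_rp, h0, coeff_zero]))
        ((deg_of_coeff fun β hβ => by rw [coeff_rp, hβ]; rfl).trans hQdeg)
        (fun m => by
          rw [coeff_rp, Int.abs_eq_natAbs]
          have := hQsz m
          unfold sz at this
          exact_mod_cast (Nat.le_add_right _ _).trans this)
      refine h3.trans ?_
      apply mul_le_mul_of_nonneg_right _ (by positivity)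
      have h4 := aeval_rp Q (fun k : Fin N => s k)
      rw [h4]
      exact Complex.abs_re_le_norm _
    · have h3 := hC0 _ hH1 (ip Q) (fun h0 => him (by rw [← coeff_ip, h0, coeff_zero]))
        ((deg_of_coeff fun β hβ => by rw [coeff_ip, hβ]; rfl).trans hQdeg)
        (fun m => by
          rw [coeff_ip, Int.abs_eq_natAbs]
          have := hQsz m
          unfold sz at this
          exact_mod_cast (Nat.le_add_left _ _).trans this)
      refine h3.trans ?_
      apply mul_le_mul_of_nonneg_right _ (by positivity)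
      have h4 := aeval_ip Q (fun k : Fin N => s k)
      rw [h4]
      exact Complex.abs_im_le_norm _
  rw [hev, norm_mul, norm_pow, Complex.norm_natCast] at hkey
  set x := ‖aeval u P‖ with hx
  have hx0 : 0 ≤ x := norm_nonneg _
  have h5 : 1 ≤ x * H ^ (c + C0 + 1) := by
    calc (1 : ℝ) ≤ (d : ℝ) ^ D * x * (((K + 2) * h : ℕ) : ℝ) ^ C0 := hkey
      _ = x * ((((d ^ D * (K + 2) ^ C0 : ℕ)) : ℝ) * (h : ℝ) ^ C0) := by
        push_cast
        rw [mul_pow]
        ring
      _ ≤ x * (((2 ^ c : ℕ) : ℝ) * H ^ C0) := by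
        apply mul_le_mul_of_nonneg_left _ hx0
        apply mul_le_mul (by exact_mod_cast hc) (pow_le_pow_left₀ (by positivity) hle _)
          (by positivity) (by positivity)
      _ ≤ x * (H ^ c * H ^ C0) := by
        apply mul_le_mul_of_nonneg_left _ hx0
        apply mul_le_mul_of_nonneg_right _ (by positivity)
        push_cast
        exact pow_le_pow_left₀ (by norm_num) hH _
      _ = x * H ^ (c + C0) := by rw [pow_add]
      _ ≤ x * H ^ (c + C0 + 1) := by
        apply mul_le_mul_of_nonneg_left _ hx0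
        exact pow_le_pow_right₀ (by linarith) (Nat.le_succ _)
  rw [Real.rpow_neg hH0.le, Real.rpow_natCast]
  rw [inv_le_iff_one_le_mul₀ (by positivity)]
  exact h5

end Pool.Agent.Helper85.MM
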